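import Pool.Agent.Y358.RTree

/-!
# Zero-hyperbolic geodesic spaces have no fat `K₅` or `K₃,₃` minors
-/

set_option autoImplicit false
open SimpleGraph

namespace Pool.Agent.Y358.RTree

variable {X : Type} [MetricSpace X]

/-- The statement about fat minors. -/
def FatMinor (X : Type) [MetricSpace X] {V : Type} (Δ : SimpleGraph V) (K : ℝ) : Prop :=
  ∃ (B : V → Set X) (P : V → V → Set X),
    (∀ v, IsConnected (B v)) ∧
    (∀ v v', v ≠ v' → Disjoint (B v) (B v')) ∧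
    (∀ u w, Δ.Adj u w → P u w = P w u ∧
      ∃ g : unitInterval → X, Continuous g ∧ Function.Injective g ∧
        Set.range g = P u w ∧ g 0 ∈ B u ∧ g 1 ∈ B w ∧
        P u w ∩ (⋃ v, B v) = {g 0, g 1}) ∧
    (∀ u w u' w', Δ.Adj u w → Δ.Adj u' w' → s(u, w) ≠ s(u', w') →
      Disjoint (P u w) (P u' w') ∧ ∀ y ∈ P u w, ∀ z ∈ P u' w', K ≤ dist y z) ∧
    (∀ v v', v ≠ v' → ∀ y ∈ B v, ∀ z ∈ B v', K ≤ dist y z) ∧
    (∀ u w v, Δ.Adj u w → v ≠ u → v ≠ w →
      ∀ y ∈ P u w, ∀ z ∈ B v, K ≤ dist y z)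

theorem no_triangle (h4 : Four X) (hG : Geo X) {V : Type} {Δ : SimpleGraph V} {u v w : V}
    (huv : Δ.Adj u v) (hvw : Δ.Adj v w) (hwu : Δ.Adj w u) {K : ℝ} (hK : 0 < K) :
    ¬ FatMinor X Δ K := by
  rintro ⟨B, P, h1, h2, h3, h5, -, h7⟩
  have far : ∀ {m : X} {S T : Set X}, m ∈ S → m ∈ T → (∀ y ∈ S, ∀ z ∈ T, K ≤ dist y z) → False := by
    intro m S T hS hT h
    have := h m hS m hT
    rw [_root_.dist_self] at this
    linarith
  obtain ⟨-, g, g1, -, g3, g4, g5, -⟩ := h3 u v huv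
  obtain ⟨-, k, k1, -, k3, k4, k5, -⟩ := h3 v w hvw
  obtain ⟨-, l, l1, -, l3, l4, l5, -⟩ := h3 w u hwu
  have pg : IsPreconnected (P u v) := g3 ▸ isPreconnected_range g1
  have pk : IsPreconnected (P v w) := k3 ▸ isPreconnected_range k1
  have pl : IsPreconnected (P w u) := l3 ▸ isPreconnected_range l1
  have mg : ∀ t, g t ∈ P u v := fun t => g3 ▸ Set.mem_range_self t
  have mk : ∀ t, k t ∈ P v w := fun t => k3 ▸ Set.mem_range_self t
  have ml : ∀ t, l t ∈ P w u := fun t => l3 ▸ Set.mem_range_self t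
  obtain ⟨m, hm1, hm2, hm3⟩ := helly h4 hG
    (IsPreconnected.union (g 0) g4 (mg 0) (h1 u).isPreconnected pg)
    (IsPreconnected.union (k 0) k4 (mk 0) (h1 v).isPreconnected pk)
    (IsPreconnected.union (l 0) l4 (ml 0) (h1 w).isPreconnected pl)
    (Or.inr (mg 1)) (Or.inl g5) (Or.inr (mk 1)) (Or.inl k5) (Or.inr (ml 1)) (Or.inl l5)
  have n1 : s(u, v) ≠ s(v, w) := by
    intro h
    rcases Sym2.eq_iff.1 h with ⟨h, -⟩ | ⟨h, -⟩
    · exact huv.ne h
    · exact hwu.ne h.symm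
  rcases hm1 with hm1 | hm1
  · rcases hm2 with hm2 | hm2
    · exact Set.disjoint_left.1 (h2 u v huv.ne) hm1 hm2
    · exact far hm2 hm1 (h7 v w u hvw huv.ne hwu.ne')
  · rcases hm2 with hm2 | hm2
    · rcases hm3 with hm3 | hm3
      · exact Set.disjoint_left.1 (h2 v w hvw.ne) hm2 hm3
      · exact far hm3 hm2 (h7 w u v hwu hvw.ne huv.ne')
    · exact Set.disjoint_left.1 (h5 u v v w huv hvw n1).1 hm1 hm2

theorem no_square (h4 : Four X) (hG : Geo X) {V : Type} {Δ : SimpleGraph V} {a b c d : V}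
    (hab : Δ.Adj a b) (hbc : Δ.Adj b c) (hcd : Δ.Adj c d) (hda : Δ.Adj d a) (hac : a ≠ c)
    (hbd : b ≠ d) {K : ℝ} (hK : 0 < K) :
    ¬ FatMinor X Δ K := by
  rintro ⟨B, P, h1, h2, h3, h5, -, h7⟩
  have far : ∀ {m : X} {S T : Set X}, m ∈ S → m ∈ T → (∀ y ∈ S, ∀ z ∈ T, K ≤ dist y z) → False := by
    intro m S T hS hT h
    have := h m hS m hT
    rw [_root_.dist_self] at this
    linarith
  obtain ⟨-, g, g1, -, g3, g4, g5, -⟩ := h3 a b hab
  obtain ⟨-, k, k1, -, k3, k4, k5, -⟩ := h3 b c hbc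
  obtain ⟨-, l, l1, -, l3, l4, l5, -⟩ := h3 c d hcd
  obtain ⟨-, j, j1, -, j3, j4, j5, -⟩ := h3 d a hda
  have pg : IsPreconnected (P a b) := g3 ▸ isPreconnected_range g1
  have pk : IsPreconnected (P b c) := k3 ▸ isPreconnected_range k1
  have pl : IsPreconnected (P c d) := l3 ▸ isPreconnected_range l1
  have pj : IsPreconnected (P d a) := j3 ▸ isPreconnected_range j1
  have mg : ∀ t, g t ∈ P a b := fun t => g3 ▸ Set.mem_range_self t
  have mk : ∀ t, k t ∈ P b c := fun t => k3 ▸ Set.mem_range_self t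
  have ml : ∀ t, l t ∈ P c d := fun t => l3 ▸ Set.mem_range_self t
  have mj : ∀ t, j t ∈ P d a := fun t => j3 ▸ Set.mem_range_self t
  obtain ⟨m, hm1, hm2, hm3⟩ := helly (C := (B a ∪ P a b) ∪ (B b ∪ P b c)) (D := B c ∪ P c d)
    (E := B d ∪ P d a) h4 hG
    (IsPreconnected.union (g 1) (Or.inr (mg 1)) (Or.inl g5)
      (IsPreconnected.union (g 0) g4 (mg 0) (h1 a).isPreconnected pg)
      (IsPreconnected.union (k 0) k4 (mk 0) (h1 b).isPreconnected pk))
    (IsPreconnected.union (l 0) l4 (ml 0) (h1 c).isPreconnected pl)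
    (IsPreconnected.union (j 0) j4 (mj 0) (h1 d).isPreconnected pj)
    (Or.inr (Or.inr (mk 1))) (Or.inl k5) (Or.inr (ml 1)) (Or.inl l5) (Or.inr (mj 1))
    (Or.inl (Or.inl j5))
  have nn : ∀ {x y z t : V}, x ≠ z → x ≠ t → s(x, y) ≠ s(z, t) := by
    intro x y z t h1 h2 h
    rcases Sym2.eq_iff.1 h with ⟨h, -⟩ | ⟨h, -⟩
    · exact h1 h
    · exact h2 h
  rcases hm2 with hm2 | hm2
  · rcases hm3 with hm3 | hm3
    · exact Set.disjoint_left.1 (h2 c d hcd.ne) hm2 hm3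
    · exact far hm3 hm2 (h7 d a c hda hcd.ne hac.symm)
  · rcases hm3 with hm3 | hm3
    · -- `m` in `B d`
      rcases hm1 with (hm1 | hm1) | (hm1 | hm1)
      · exact Set.disjoint_left.1 (h2 a d hda.ne') hm1 hm3
      · exact far hm1 hm3 (h7 a b d hab hda.ne hbd.symm)
      · exact Set.disjoint_left.1 (h2 b d hbd) hm1 hm3
      · exact far hm1 hm3 (h7 b c d hbc hbd.symm hcd.ne')
    · exact Set.disjoint_left.1 (h5 c d d a hcd hda (nn hcd.ne hac.symm)).1 hm2 hm3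

theorem no_minor (h4 : Four X) (hG : Geo X) {V : Type} {Δ : SimpleGraph V}
    (h : Nonempty (SimpleGraph.Iso Δ (⊤ : SimpleGraph (Fin 5))) ∨
      Nonempty (SimpleGraph.Iso Δ (completeBipartiteGraph (Fin 3) (Fin 3)))) {K : ℝ}
    (hK : 0 < K) : ¬ FatMinor X Δ K := by
  rcases h with ⟨⟨e⟩⟩ | ⟨⟨e⟩⟩
  · have adj : ∀ i j : Fin 5, i ≠ j → Δ.Adj (e.symm i) (e.symm j) := by
      intro i j hij
      rw [e.symm.map_adj_iff]
      exact hij
    exact no_triangle h4 hG (adj 0 1 (by decide)) (adj 1 2 (by decide)) (adj 2 0 (by decide)) hK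
  · have adj : ∀ i j : Fin 3, Δ.Adj (e.symm (Sum.inl i)) (e.symm (Sum.inr j)) := by
      intro i j
      rw [e.symm.map_adj_iff]
      simp [completeBipartiteGraph]
    refine no_square h4 hG (adj 0 0) (adj 1 0).symm (adj 1 1) (adj 0 1).symm ?_ ?_ hK
    · intro h
      have := e.symm.injective h
      simp at this
    · intro h
      have := e.symm.injective h
      simp at this

end Pool.Agent.Y358.RTree
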