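import Pool.Agent.Y358.RTree

/-!
# Trees made of rays
-/

set_option autoImplicit false

namespace Pool.Agent.Y358.RTree

/-- A system of rays: two rays `i ≠ j` coincide up to height `M i j`. -/
structure RaySys where
  B : Type
  M : B → B → ℝ
  symm : ∀ i j, M i j = M j i
  nonneg : ∀ i j, 0 ≤ M i j
  ultra : ∀ i j k, i ≠ k → min (M i j) (M j k) ≤ M i k

/-- Points on rays. -/
structure Pt (R : RaySys) where
  i : R.B
  h : ℝ
  nn : 0 ≤ h

namespace Pt

variable {R : RaySys}

open Classical in
/-- The height up to which the segments from the root coincide. -/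
noncomputable def meet (a b : Pt R) : ℝ :=
  if a.i = b.i then min a.h b.h else min (min a.h b.h) (R.M a.i b.i)

theorem meet_self (a : Pt R) : meet a a = a.h := by simp [meet]

theorem meet_comm (a b : Pt R) : meet a b = meet b a := by
  unfold meet
  by_cases h : a.i = b.i
  · rw [if_pos h, if_pos h.symm, min_comm]
  · rw [if_neg h, if_neg (Ne.symm h), min_comm a.h, R.symm]

theorem meet_le_left (a b : Pt R) : meet a b ≤ a.h := by
  unfold meet
  split_ifs
  · exact min_le_left _ _
  · exact (min_le_left _ _).trans (min_le_left _ _)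

theorem meet_le_right (a b : Pt R) : meet a b ≤ b.h := by
  rw [meet_comm]
  exact meet_le_left b a

theorem meet_nonneg (a b : Pt R) : 0 ≤ meet a b := by
  unfold meet
  split_ifs
  · exact le_min a.nn b.nn
  · exact le_min (le_min a.nn b.nn) (R.nonneg _ _)

theorem meet_ultra (a b c : Pt R) : min (meet a b) (meet b c) ≤ meet a c := by
  have h1 := meet_le_left a b
  have h2 := meet_le_right b c
  have h3 : min (meet a b) (meet b c) ≤ min a.h c.h :=
    le_min ((min_le_left _ _).trans h1) ((min_le_right _ _).trans h2)
  by_cases hac : a.i = c.i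
  · rw [show meet a c = min a.h c.h from if_pos hac]
    exact h3
  · have hm : min (meet a b) (meet b c) ≤ R.M a.i c.i := by
      by_cases hab : a.i = b.i
      · refine (min_le_right _ _).trans ?_
        have hbc : b.i ≠ c.i := fun h => hac (hab.trans h)
        rw [meet, if_neg hbc, hab]
        exact min_le_right _ _
      · by_cases hbc : b.i = c.i
        · refine (min_le_left _ _).trans ?_
          rw [meet, if_neg hab, ← hbc]
          exact min_le_right _ _
        · refine le_trans ?_ (R.ultra a.i b.i c.i hac)
          refine min_le_min ?_ ?_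
          · rw [meet, if_neg hab]
            exact min_le_right _ _
          · rw [meet, if_neg hbc]
            exact min_le_right _ _
    rw [show meet a c = min (min a.h c.h) (R.M a.i c.i) from if_neg hac]
    exact le_min h3 hm

noncomputable instance : PseudoMetricSpace (Pt R) where
  dist a b := a.h + b.h - 2 * meet a b
  dist_self a := by
    rw [meet_self]
    ring
  dist_comm a b := by
    rw [meet_comm]
    ring
  dist_triangle a b c := by
    have h1 := meet_ultra a b c
    have h2 := meet_le_right a b
    have h3 := meet_le_left b c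
    rcases min_le_iff.1 h1 with h | h
    · linarith
    · linarith

theorem dist_def (a b : Pt R) : dist a b = a.h + b.h - 2 * meet a b := rfl

theorem four (a b c d : Pt R) :
    dist a b + dist c d ≤ max (dist a c + dist b d) (dist a d + dist b c) := by
  rw [le_max_iff]
  simp only [dist_def]
  by_contra hcon
  push Not at hcon
  obtain ⟨h1, h2⟩ := hcon
  have c4 := meet_comm c b
  have c5 := meet_comm d b
  have c2 := meet_comm c a
  have u1 := min_le_iff.1 (meet_ultra a c b)
  have u2 := min_le_iff.1 (meet_ultra a d b)
  have u3 := min_le_iff.1 (meet_ultra c a d)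
  have u4 := min_le_iff.1 (meet_ultra c b d)
  rcases u1 with u1 | u1 <;> rcases u2 with u2 | u2 <;> rcases u3 with u3 | u3 <;>
    rcases u4 with u4 | u4 <;> rcases le_total (meet a b) (meet c d) with u5 | u5 <;> linarith

/-- A point on a ray. -/
noncomputable def mkp (i : R.B) (h : ℝ) : Pt R := ⟨i, max h 0, le_max_right _ _⟩

theorem mkp_i (i : R.B) (h : ℝ) : (mkp i h : Pt R).i = i := rfl

theorem mkp_same (i : R.B) (h h' : ℝ) : (mkp i h : Pt R).i = (mkp i h' : Pt R).i := rfl

theorem mkp_h (i : R.B) {h : ℝ} (h0 : 0 ≤ h) : (mkp i h : Pt R).h = h := max_eq_left h0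

/-- The geodesic from `a` to `b`. -/
noncomputable def geod (a b : Pt R) (t : ℝ) : Pt R :=
  if t ≤ a.h - meet a b then mkp a.i (a.h - t) else mkp b.i (t - a.h + 2 * meet a b)

theorem dist_same {a b : Pt R} (h : a.i = b.i) : dist a b = |a.h - b.h| := by
  rw [dist_def, meet, if_pos h]
  rcases le_total a.h b.h with h1 | h1
  · rw [min_eq_left h1, abs_of_nonpos (by linarith)]
    ring
  · rw [min_eq_right h1, abs_of_nonneg (by linarith)]
    ring

theorem dist_far {a b : Pt R} (h : a.i ≠ b.i) (hM : R.M a.i b.i = 0) : dist a b = a.h + b.h := by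
  rw [dist_def, meet, if_neg h, hM, min_eq_right (le_min a.nn b.nn)]
  ring

theorem geod_dist (a b : Pt R) {s t : ℝ} (hs : 0 ≤ s) (hst : s ≤ t) (ht : t ≤ dist a b) :
    dist (geod a b s) (geod a b t) = t - s := by
  have hm0 := meet_nonneg a b
  have hma := meet_le_left a b
  have hmb := meet_le_right a b
  rw [dist_def] at ht
  unfold geod
  by_cases h1 : t ≤ a.h - meet a b
  · rw [if_pos h1, if_pos (hst.trans h1), dist_same (mkp_same _ _ _), mkp_h _ (by linarith),
      mkp_h _ (by linarith), abs_of_nonneg (by linarith)]
    ring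
  · rw [if_neg h1]
    push Not at h1
    by_cases h2 : s ≤ a.h - meet a b
    · have e1 : (mkp a.i (a.h - s) : Pt R).h = a.h - s := mkp_h _ (by linarith)
      have e2 : (mkp b.i (t - a.h + 2 * meet a b) : Pt R).h = t - a.h + 2 * meet a b :=
        mkp_h _ (by linarith)
      have hmeet : meet (mkp a.i (a.h - s)) (mkp b.i (t - a.h + 2 * meet a b)) = meet a b := by
        rw [meet, e1, e2, mkp_i, mkp_i]
        by_cases hi : a.i = b.i
        · rw [if_pos hi]
          have hm : meet a b = min a.h b.h := if_pos hi
          refine le_antisymm ?_ (le_min (by linarith) (by linarith))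
          rcases le_total a.h b.h with h3 | h3
          · rw [min_eq_left h3] at hm
            exact (min_le_left _ _).trans (by linarith)
          · rw [min_eq_right h3] at hm
            exact (min_le_right _ _).trans (by linarith)
        · rw [if_neg hi]
          have hm : meet a b = min (min a.h b.h) (R.M a.i b.i) := if_neg hi
          have hmM : meet a b ≤ R.M a.i b.i := by
            rw [hm]
            exact min_le_right _ _
          refine le_antisymm ?_ (le_min (le_min (by linarith) (by linarith)) hmM)
          rw [hm]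
          refine le_min (le_min ?_ ?_) (min_le_right _ _)
          · exact ((min_le_left _ _).trans (min_le_left _ _)).trans (by linarith)
          · exact ((min_le_left _ _).trans (min_le_right _ _)).trans (by linarith)
      rw [if_pos h2, dist_def, hmeet, e1, e2]
      ring
    · rw [if_neg h2]
      push Not at h2
      rw [dist_same (mkp_same _ _ _), mkp_h _ (by linarith), mkp_h _ (by linarith),
        abs_of_nonpos (by linarith)]
      ring

theorem geod_zero (a b : Pt R) : dist (geod a b 0) a = 0 := by
  have hma := meet_le_left a b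
  unfold geod
  rw [if_pos (by linarith), dist_same (mkp_i _ _), mkp_h _ (by linarith [a.nn])]
  simp

theorem geod_end (a b : Pt R) : dist (geod a b (dist a b)) b = 0 := by
  have hma := meet_le_left a b
  have hmb := meet_le_right a b
  have hm0 := meet_nonneg a b
  have hd := dist_def a b
  unfold geod
  by_cases h : dist a b ≤ a.h - meet a b
  · rw [if_pos h]
    have e1 : b.h = meet a b := by linarith
    have e2 : a.h - dist a b = b.h := by linarith
    have e3 : (mkp a.i (a.h - dist a b) : Pt R).h = b.h := by
      rw [mkp_h _ (by linarith [b.nn]), e2]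
    have e4 : meet (mkp a.i (a.h - dist a b)) b = b.h := by
      rw [meet, e3, mkp_i, min_self]
      by_cases hi : a.i = b.i
      · rw [if_pos hi]
      · rw [if_neg hi]
        have hm : meet a b = min (min a.h b.h) (R.M a.i b.i) := if_neg hi
        refine min_eq_left ?_
        rw [e1, hm]
        exact min_le_right _ _
    rw [dist_def, e3, e4]
    ring
  · rw [if_neg h, dist_same (mkp_i _ _), mkp_h _ (by linarith)]
    have : dist a b - a.h + 2 * meet a b - b.h = 0 := by linarith
    rw [this, abs_zero]

end Pt

/-- The tree. -/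
abbrev Tr (R : RaySys) : Type := SeparationQuotient (Pt R)

variable {R : RaySys}

theorem four_tr : Four (Tr R) := by
  intro a b c d
  obtain ⟨a, rfl⟩ := SeparationQuotient.surjective_mk a
  obtain ⟨b, rfl⟩ := SeparationQuotient.surjective_mk b
  obtain ⟨c, rfl⟩ := SeparationQuotient.surjective_mk c
  obtain ⟨d, rfl⟩ := SeparationQuotient.surjective_mk d
  simp only [SeparationQuotient.dist_mk]
  exact Pt.four a b c d

theorem geo_tr : Geo (Tr R) := by
  intro a b t h0 h1
  obtain ⟨a, rfl⟩ := SeparationQuotient.surjective_mk a
  obtain ⟨b, rfl⟩ := SeparationQuotient.surjective_mk b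
  rw [SeparationQuotient.dist_mk] at h1
  refine ⟨SeparationQuotient.mk (Pt.geod a b t), ?_, ?_⟩
  · rw [SeparationQuotient.dist_mk]
    have e1 := Pt.geod_dist a b le_rfl h0 h1
    have e2 := Pt.geod_zero a b
    have t1 := dist_triangle a (Pt.geod a b 0) (Pt.geod a b t)
    have t2 := dist_triangle (Pt.geod a b 0) a (Pt.geod a b t)
    rw [dist_comm] at e2
    have c1 := dist_comm (Pt.geod a b 0) a
    linarith
  · rw [SeparationQuotient.dist_mk, SeparationQuotient.dist_mk]
    have e1 := Pt.geod_dist a b h0 h1 le_rfl
    have e2 := Pt.geod_end a b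
    have t1 := dist_triangle (Pt.geod a b t) (Pt.geod a b (dist a b)) b
    have t2 := dist_triangle (Pt.geod a b t) b (Pt.geod a b (dist a b))
    have c1 := dist_comm (Pt.geod a b (dist a b)) b
    linarith

theorem length_tr (x y : Tr R) : ∃ γ : Path x y,
    eVariationOn (fun t : unitInterval => γ t) Set.univ ≤ ENNReal.ofReal (dist x y) := by
  obtain ⟨a, rfl⟩ := SeparationQuotient.surjective_mk x
  obtain ⟨b, rfl⟩ := SeparationQuotient.surjective_mk y
  rw [SeparationQuotient.dist_mk]
  set D := dist a b with hD
  have hD0 : 0 ≤ D := dist_nonneg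
  let f : ℝ → Tr R := fun t => SeparationQuotient.mk (Pt.geod a b t)
  let g : unitInterval → ℝ := fun t => t.1 * D
  have hf : ∀ s t, 0 ≤ s → s ≤ D → 0 ≤ t → t ≤ D → dist (f s) (f t) ≤ dist s t := by
    intro s t h1 h2 h3 h4
    simp only [f, SeparationQuotient.dist_mk]
    rcases le_total s t with h | h
    · rw [Pt.geod_dist a b h1 h h4, dist_comm, Real.dist_eq]
      exact le_abs_self _
    · rw [dist_comm, Pt.geod_dist a b h3 h h2, Real.dist_eq]
      exact le_abs_self _
  have hfl : LipschitzOnWith 1 f (Set.Icc 0 D) := by
    refine LipschitzOnWith.of_dist_le_mul fun s hs t ht => ?_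
    rw [NNReal.coe_one, one_mul]
    exact hf s t hs.1 hs.2 ht.1 ht.2
  have hgm : Set.MapsTo g Set.univ (Set.Icc 0 D) := by
    intro t _
    exact ⟨mul_nonneg t.2.1 hD0, mul_le_of_le_one_left hD0 t.2.2⟩
  have hgc : Continuous g := by fun_prop
  have hcont : Continuous (f ∘ g) := by
    rw [← continuousOn_univ]
    exact hfl.continuousOn.comp hgc.continuousOn hgm
  refine ⟨⟨⟨f ∘ g, hcont⟩, ?_, ?_⟩, ?_⟩
  · simp only [Function.comp, g, f]
    rw [SeparationQuotient.mk_eq_mk, Metric.inseparable_iff]
    simpa using Pt.geod_zero a b
  · simp only [Function.comp, g, f]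
    rw [SeparationQuotient.mk_eq_mk, Metric.inseparable_iff]
    simpa using Pt.geod_end a b
  · have h1 := hfl.comp_eVariationOn_le hgm
    have h2 : eVariationOn g Set.univ ≤ ENNReal.ofReal D := by
      have hmono : MonotoneOn g Set.univ := by
        intro s _ t _ hst
        exact mul_le_mul_of_nonneg_right hst hD0
      have h3 := (hmono.eVariationOn_eq (a := 0) (b := 1) (Set.mem_univ _) (Set.mem_univ _)).le
      have e1 : (Set.univ ∩ Set.Icc (0 : unitInterval) 1) = Set.univ := by
        ext t
        simp only [Set.univ_inter, Set.mem_Icc, Set.mem_univ, iff_true]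
        exact ⟨t.2.1, t.2.2⟩
      rw [e1] at h3
      simpa [g] using h3
    rw [ENNReal.coe_one, one_mul] at h1
    exact h1.trans h2

end Pool.Agent.Y358.RTree
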