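import Mathlib

/-!
# Zero-hyperbolic geodesic spaces have no triangles of connected sets
-/

set_option autoImplicit false

namespace Pool.Agent.Y358.RTree

variable {X : Type} [MetricSpace X]

/-- The four-point condition. -/
def Four (X : Type) [MetricSpace X] : Prop :=
  ∀ a b c d : X, dist a b + dist c d ≤ max (dist a c + dist b d) (dist a d + dist b c)

/-- Geodesic spaces. -/
def Geo (X : Type) [MetricSpace X] : Prop :=
  ∀ a b : X, ∀ t : ℝ, 0 ≤ t → t ≤ dist a b → ∃ m : X, dist a m = t ∧ dist m b = dist a b - t

/-- A connected set contains all points between two of its points. -/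
theorem between_mem (h4 : Four X) {C : Set X} (hC : IsPreconnected C) {a b p : X} (ha : a ∈ C)
    (hb : b ∈ C) (hp : dist a p + dist p b = dist a b) : p ∈ C := by
  by_contra hpC
  let U : Set X := {x | dist a x < dist a p + dist p x}
  let V : Set X := {x | x ≠ p ∧ dist a x = dist a p + dist p x}
  have hU : IsOpen U := isOpen_lt (by fun_prop) (by fun_prop)
  have hV : IsOpen V := by
    rw [Metric.isOpen_iff]
    rintro x ⟨hx, hx2⟩
    have hpos : 0 < dist p x := dist_pos.2 (Ne.symm hx)
    refine ⟨dist p x, hpos, fun y hy => ?_⟩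
    rw [Metric.mem_ball, dist_comm] at hy
    refine ⟨?_, ?_⟩
    · rintro rfl
      rw [dist_comm] at hy
      exact lt_irrefl _ hy
    · have h1 := h4 a x p y
      have h2 := dist_triangle a p y
      have h3 : dist x p = dist p x := dist_comm _ _
      have h5 : 0 ≤ dist p y := dist_nonneg
      rcases le_max_iff.1 h1 with h | h
      · linarith
      · linarith
  have hdis : U ∩ V = ∅ := by
    ext x
    simp only [Set.mem_inter_iff, Set.mem_empty_iff_false, iff_false, not_and]
    intro h1 h2
    exact absurd h2.2 (ne_of_lt h1)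
  have hcov : C ⊆ U ∪ V := by
    intro x hx
    by_cases h : x ∈ U
    · exact Or.inl h
    · refine Or.inr ⟨fun h' => hpC (h' ▸ hx), ?_⟩
      have h1 : dist a p + dist p x ≤ dist a x := not_lt.1 h
      exact le_antisymm (dist_triangle _ _ _) h1
  have haU : a ∈ U := by
    have : a ≠ p := fun h => hpC (h ▸ ha)
    have h1 : 0 < dist a p := dist_pos.2 this
    have h2 : 0 ≤ dist p a := dist_nonneg
    change dist a a < dist a p + dist p a
    rw [dist_self]
    linarith
  have hbV : b ∈ V := ⟨fun h => hpC (h ▸ hb), hp.symm⟩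
  obtain ⟨x, hx⟩ := hC U V hU hV hcov ⟨a, ha, haU⟩ ⟨b, hb, hbV⟩
  rw [hdis] at hx
  exact hx.2

/-- Three pairwise intersecting connected sets have a common point. -/
theorem helly (h4 : Four X) (hG : Geo X) {C D E : Set X} (hC : IsPreconnected C)
    (hD : IsPreconnected D) (hE : IsPreconnected E) {a b c : X} (haC : a ∈ C) (haD : a ∈ D)
    (hbD : b ∈ D) (hbE : b ∈ E) (hcE : c ∈ E) (hcC : c ∈ C) : ∃ m, m ∈ C ∧ m ∈ D ∧ m ∈ E := by
  have t1 := dist_triangle a c b
  have t2 := dist_triangle c a b
  have t3 := dist_triangle a b c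
  have c1 : dist c b = dist b c := dist_comm _ _
  have c2 : dist c a = dist a c := dist_comm _ _
  obtain ⟨m, hm1, hm2⟩ := hG a b ((dist a b + dist a c - dist b c) / 2) (by linarith) (by linarith)
  have h5 := h4 a b c m
  have c3 : dist b m = dist m b := dist_comm _ _
  have c4 : dist c m = dist m c := dist_comm _ _
  have h6 : dist m c ≤ dist a c - (dist a b + dist a c - dist b c) / 2 := by
    rcases le_max_iff.1 h5 with h | h
    · linarith
    · linarith
  have h7 := dist_triangle a m c
  have h8 := dist_triangle b m c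
  refine ⟨m, between_mem h4 hC haC hcC ?_, between_mem h4 hD haD hbD ?_,
    between_mem h4 hE hbE hcE ?_⟩
  · linarith
  · linarith
  · linarith

end Pool.Agent.Y358.RTree
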